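import Pool.Agent.W325.S3.Stm
import Pool.Agent.H46R2.K3.Basic
import Pool.Agent.H46R2.K3.MU

/-!
Part S3-BLK1 of project S3 (helper325): a heavy family of bridges of large span and small radius.
-/

set_option autoImplicit false

namespace Pool.Agent.W287.S3.Blk1

open Finset Pool.Agent.H46R2.K3 Pool.Agent.W325.S3
open Pool.Agent.H46R2.K3.P

open Classical in
/-- self-avoiding words of length `n` -/
noncomputable def SA (n : ℕ) : Finset (List St) := (W n).filter Saw

open Classical in
theorem card_SA (n : ℕ) : #(SA n) = c n := rfl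

open Classical in
/-- the normalised words -/
noncomputable def SS (k E : ℕ) : Finset (List St) :=
  (W k).filter fun w => Saw w ∧ (∀ i ≤ k, ∀ j ≤ k, ∀ t, pos w i t - pos w j t < 12 * (E : ℤ)) ∧
    ((E - 1 : ℕ) : ℤ) ≤ disp w 0

open Classical in
/-- the covered words -/
noncomputable def S0 (k E : ℕ) : Finset (List St) :=
  (W k).filter fun w => (Saw w ∧ ∃ d, ((E - 1 : ℕ) : ℤ) ≤ |disp w d|) ∧ Cov w E 4

theorem far_le (k E : ℕ) : far k (E - 1) ≤ #(S0 k E) + bad k E 4 := by
  classical
  unfold far bad S0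
  rw [← Finset.card_union_of_disjoint]
  · refine Finset.card_le_card fun w hw => ?_
    rw [Finset.mem_union, Finset.mem_filter, Finset.mem_filter]
    rw [Finset.mem_filter] at hw
    by_cases h : Cov w E 4
    · exact Or.inl ⟨hw.1, hw.2, h⟩
    · exact Or.inr ⟨hw.1, hw.2.1, h⟩
  · rw [Finset.disjoint_left]
    intro w h1 h2
    rw [Finset.mem_filter] at h1 h2
    exact h2.2.2 h1.2.2

/-- the inverse of the normalisation -/
def MM (q : Fin 3 × Bool) (v : List St) : List St :=
  (if q.2 then v else v.map flip0).map (perm q.1)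

theorem S0_sub (hE : S_EXT) (k E : ℕ) (hE1 : 1 ≤ E) :
    #(S0 k E) ≤ 6 * #(SS k E) := by
  classical
  have hsub : S0 k E ⊆ (Finset.univ : Finset (Fin 3 × Bool)).biUnion
      (fun q => (SS k E).image (MM q)) := by
    intro w hw
    unfold S0 at hw
    rw [Finset.mem_filter, mem_W] at hw
    obtain ⟨hlen, ⟨hsaw, d, hd⟩, hcov⟩ := hw
    have hext : ∀ i ≤ k, ∀ j ≤ k, ∀ t, pos w i t - pos w j t < 12 * (E : ℤ) := by
      intro i hi j hj t
      have h1 := hE w E 4 hcov i (by omega) j (by omega) t
      have h2 : (1 : ℤ) ≤ E := by exact_mod_cast hE1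
      push_cast at h1
      linarith
    rw [Finset.mem_biUnion]
    by_cases hs : 0 ≤ disp w d
    · refine ⟨(d, true), Finset.mem_univ _, ?_⟩
      rw [Finset.mem_image]
      refine ⟨w.map (perm d), ?_, ?_⟩
      · unfold SS
        rw [Finset.mem_filter, mem_W]
        refine ⟨by rw [List.length_map, hlen], saw_map_perm d hsaw, ?_, ?_⟩
        · intro i hi j hj t
          rw [pos_map_perm, pos_map_perm]
          exact hext i hi j hj _
        · rw [disp_map_perm, Equiv.swap_apply_left]
          rwa [abs_of_nonneg hs] at hd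
      · unfold MM
        simp only [if_true]
        exact map_perm_perm d w
    · refine ⟨(d, false), Finset.mem_univ _, ?_⟩
      rw [Finset.mem_image]
      push Not at hs
      refine ⟨(w.map (perm d)).map flip0, ?_, ?_⟩
      · unfold SS
        rw [Finset.mem_filter, mem_W]
        refine ⟨by rw [List.length_map, List.length_map, hlen],
          saw_map_flip0 (saw_map_perm d hsaw), ?_, ?_⟩
        · intro i hi j hj t
          rw [pos_map_flip0, pos_map_flip0, pos_map_perm, pos_map_perm]
          have h1 := hext i hi j hj (Equiv.swap 0 d t)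
          have h2 := hext j hj i hi (Equiv.swap 0 d t)
          split_ifs <;> linarith
        · rw [disp_map_flip0, disp_map_perm, Equiv.swap_apply_left, if_pos rfl]
          rwa [abs_of_neg hs] at hd
      · unfold MM
        simp only [Bool.false_eq_true, if_false]
        rw [map_flip0_flip0]
        exact map_perm_perm d w
  refine (Finset.card_le_card hsub).trans (Finset.card_biUnion_le.trans ?_)
  calc ∑ q : Fin 3 × Bool, #((SS k E).image (MM q)) ≤ ∑ q : Fin 3 × Bool, #(SS k E) :=
        Finset.sum_le_sum fun q _ => Finset.card_image_le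
    _ = 6 * #(SS k E) := by
        rw [Finset.sum_const, smul_eq_mul]
        rfl

/-- the decomposition of a word -/
theorem exists_ab {k E : ℕ} {w : List St} (hw : w ∈ SS k E) :
    ∃ a j, a + j ≤ k ∧ w.take a ∈ SA a ∧ (w.drop a).take j ∈ brr j (E - 1) (12 * E) ∧
      w.drop (a + j) ∈ SA (k - a - j) := by
  classical
  unfold SS at hw
  rw [Finset.mem_filter, mem_W] at hw
  obtain ⟨hlen, hsaw, hext, hd⟩ := hw
  -- the last minimum
  obtain ⟨a, ha, hmin⟩ := (Finset.range (k + 1)).exists_min_image
    (fun i => ((k : ℤ) + 2) * pos w i 0 - (i : ℤ)) ⟨0, by simp⟩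
  rw [Finset.mem_range] at ha
  have hmin1 : ∀ i ≤ k, pos w a 0 ≤ pos w i 0 := by
    intro i hi
    have h1 := hmin i (Finset.mem_range.2 (by omega))
    by_contra hcon
    push Not at hcon
    have h2 : pos w i 0 ≤ pos w a 0 - 1 := by omega
    have h3 : ((k : ℤ) + 2) * pos w i 0 ≤ ((k : ℤ) + 2) * (pos w a 0 - 1) :=
      mul_le_mul_of_nonneg_left h2 (by positivity)
    have h4 : (a : ℤ) ≤ k := by exact_mod_cast Nat.lt_succ_iff.1 ha
    have h5 : (0 : ℤ) ≤ i := by positivity
    linarith
  have hmin2 : ∀ i ≤ k, a < i → pos w a 0 < pos w i 0 := by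
    intro i hi hai
    refine lt_of_le_of_ne (hmin1 i hi) ?_
    intro heq
    have h1 := hmin i (Finset.mem_range.2 (by omega))
    rw [heq] at h1
    have : (a : ℤ) < i := by exact_mod_cast hai
    linarith
  obtain ⟨b, hb, hmax⟩ := (Finset.Icc a k).exists_max_image (fun i => pos w i 0)
    ⟨k, by rw [Finset.mem_Icc]; omega⟩
  rw [Finset.mem_Icc] at hb
  obtain ⟨j, rfl⟩ := Nat.exists_eq_add_of_le hb.1
  have hal : a ≤ w.length := by omega
  have hvl : ((w.drop a).take j).length = j := by
    rw [List.length_take, List.length_drop]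
    omega
  have hpos : ∀ i ≤ j, pos ((w.drop a).take j) i = pos w (a + i) - pos w a := by
    intro i hi
    rw [pos_take hi, pos_drop w hal]
  have hdisp : disp ((w.drop a).take j) = pos w (a + j) - pos w a := by
    rw [disp_take, pos_drop w hal]
  refine ⟨a, j, hb.2, ?_, ?_, ?_⟩
  · unfold SA
    rw [Finset.mem_filter, mem_W]
    refine ⟨?_, saw_take hsaw a⟩
    rw [List.length_take]
    omega
  · unfold brr
    rw [Finset.mem_filter, mem_W]
    refine ⟨hvl, ⟨saw_take (saw_drop hsaw a) j, ?_⟩, ?_, ?_⟩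
    · intro i h1 h2
      rw [hvl] at h2
      rw [hpos i h2, hdisp, Pi.sub_apply, Pi.sub_apply]
      have h3 := hmin2 (a + i) (by omega) (by omega)
      have h4 : pos w (a + i) 0 ≤ pos w (a + j) 0 :=
        hmax (a + i) (by rw [Finset.mem_Icc]; omega)
      constructor <;> linarith
    · rw [hdisp, Pi.sub_apply]
      have h3 := hmin1 0 (by omega)
      have h4 : pos w k 0 ≤ pos w (a + j) 0 := hmax k (by rw [Finset.mem_Icc]; omega)
      have h5 : pos w k 0 = disp w 0 := by rw [← hlen, pos_length]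
      have h6 : pos w 0 0 = 0 := by simp [pos]
      linarith
    · intro i hi t
      rw [hpos i hi, Pi.sub_apply, abs_le]
      have h3 := hext (a + i) (by omega) a (by omega) t
      have h4 := hext a (by omega) (a + i) (by omega) t
      push_cast
      constructor <;> linarith
  · unfold SA
    rw [Finset.mem_filter, mem_W]
    refine ⟨?_, saw_drop hsaw _⟩
    rw [List.length_drop]
    omega

theorem SS_card (k E : ℕ) : #(SS k E) ≤ ∑ q ∈ (Finset.range (k + 1) ×ˢ Finset.range (k + 1)).filter
      (fun q => q.1 + q.2 ≤ k), c q.1 * (#(brr q.2 (E - 1) (12 * E)) * c (k - q.1 - q.2)) := by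
  classical
  have hsub : SS k E ⊆ ((Finset.range (k + 1) ×ˢ Finset.range (k + 1)).filter
      (fun q => q.1 + q.2 ≤ k)).biUnion (fun q =>
        (SA q.1 ×ˢ (brr q.2 (E - 1) (12 * E) ×ˢ SA (k - q.1 - q.2))).image
          (fun x => x.1 ++ (x.2.1 ++ x.2.2))) := by
    intro w hw
    obtain ⟨a, j, h1, h2, h3, h4⟩ := exists_ab hw
    rw [Finset.mem_biUnion]
    refine ⟨(a, j), ?_, ?_⟩
    · rw [Finset.mem_filter, Finset.mem_product, Finset.mem_range, Finset.mem_range]
      exact ⟨⟨by omega, by omega⟩, h1⟩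
    · rw [Finset.mem_image]
      refine ⟨(w.take a, ((w.drop a).take j, w.drop (a + j))), ?_, ?_⟩
      · rw [Finset.mem_product, Finset.mem_product]
        exact ⟨h2, h3, h4⟩
      · simp only
        rw [← List.drop_drop, List.take_append_drop, List.take_append_drop]
  refine (Finset.card_le_card hsub).trans (Finset.card_biUnion_le.trans ?_)
  refine Finset.sum_le_sum fun q _ => ?_
  refine Finset.card_image_le.trans ?_
  rw [Finset.card_product, Finset.card_product, card_SA, card_SA]

theorem mu_pos' : 0 < mu := by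
  have := one_le_mu
  linarith

theorem blk1 (hE : S_EXT) : S_BLK1 := by
  intro m E g hm hE2 hg hc hbad hk
  obtain ⟨k, hkm, hfar⟩ := hk
  by_contra hcon
  push Not at hcon
  have hmu := mu_pos'
  have hm1 : (1 : ℝ) ≤ m := by exact_mod_cast hm
  have heg : 48 ≤ Real.exp g := by nlinarith
  have hg0 : 0 < g := by
    by_contra h
    push Not at h
    have : Real.exp g ≤ 1 := by
      rw [← Real.exp_zero]
      exact Real.exp_le_exp.2 h
    linarith
  have hmk : 0 < mu ^ k := pow_pos hmu k
  -- the bad words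
  have h1 : (bad k E 4 : ℝ) ≤ mu ^ k * Real.exp (-(6 * g)) := by
    refine (hbad k 4).trans (mul_le_mul_of_nonneg_left (Real.exp_le_exp.2 ?_) hmk.le)
    have h2 : ((k / m : ℕ) : ℝ) ≤ 1 := by
      have : k / m ≤ 1 := by
        rw [Nat.div_le_iff_le_mul_add_pred hm]
        omega
      exact_mod_cast this
    push_cast
    nlinarith
  have h2 : Real.exp (-(6 * g)) ≤ 1 / 2 * Real.exp (-(4 * g)) := by
    have e1 : Real.exp (-(6 * g)) = Real.exp (-(4 * g)) * Real.exp (-(2 * g)) := by
      rw [← Real.exp_add]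
      congr 1
      ring
    have e2 : Real.exp (-(2 * g)) ≤ 1 / 2 := by
      have e3 : Real.exp (-(2 * g)) = (Real.exp g * Real.exp g)⁻¹ := by
        rw [← Real.exp_add, ← Real.exp_neg]
        congr 1
        ring
      rw [e3, inv_le_comm₀ (by positivity) (by norm_num)]
      nlinarith
    rw [e1]
    nlinarith [Real.exp_pos (-(4 * g))]
  have h3 : (far k (E - 1) : ℝ) ≤ 6 * (#(SS k E) : ℝ) + bad k E 4 := by
    have a1 := far_le k E
    have a2 := S0_sub hE k E (by omega)
    have a3 : far k (E - 1) ≤ 6 * #(SS k E) + bad k E 4 := by omega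
    exact_mod_cast a3
  have h4 : 1 / 12 * (mu ^ k * Real.exp (-(4 * g))) < (#(SS k E) : ℝ) := by
    have : mu ^ k * Real.exp (-(6 * g)) ≤ mu ^ k * (1 / 2 * Real.exp (-(4 * g))) :=
      mul_le_mul_of_nonneg_left h2 hmk.le
    linarith
  -- the upper bound
  have h5 : (#(SS k E) : ℝ) ≤ ((k : ℝ) + 1) ^ 2 * (mu ^ k * Real.exp (-(5 * g))) := by
    have b1 : (#(SS k E) : ℝ) ≤ ∑ q ∈ (Finset.range (k + 1) ×ˢ Finset.range (k + 1)).filter
        (fun q => q.1 + q.2 ≤ k),
        (c q.1 : ℝ) * ((#(brr q.2 (E - 1) (12 * E)) : ℝ) * (c (k - q.1 - q.2) : ℝ)) := by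
      exact_mod_cast SS_card k E
    refine b1.trans ?_
    have b2 : ∀ q ∈ (Finset.range (k + 1) ×ˢ Finset.range (k + 1)).filter
        (fun q => q.1 + q.2 ≤ k),
        (c q.1 : ℝ) * ((#(brr q.2 (E - 1) (12 * E)) : ℝ) * (c (k - q.1 - q.2) : ℝ)) ≤
          mu ^ k * Real.exp (-(5 * g)) := by
      intro q hq
      rw [Finset.mem_filter] at hq
      have hq2 := hq.2
      have c1 := hc q.1 (by omega)
      have c2 := (hcon q.2 (by omega)).le
      have c3 := hc (k - q.1 - q.2) (by omega)
      calc (c q.1 : ℝ) * ((#(brr q.2 (E - 1) (12 * E)) : ℝ) * (c (k - q.1 - q.2) : ℝ))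
          ≤ (mu ^ q.1 * Real.exp g) * ((mu ^ q.2 * Real.exp (-(7 * g))) *
              (mu ^ (k - q.1 - q.2) * Real.exp g)) := by
            refine mul_le_mul c1 (mul_le_mul c2 c3 (by positivity) (by positivity))
              (by positivity) (by positivity)
        _ = (mu ^ q.1 * mu ^ q.2 * mu ^ (k - q.1 - q.2)) *
              (Real.exp g * Real.exp (-(7 * g)) * Real.exp g) := by ring
        _ = mu ^ k * Real.exp (-(5 * g)) := by
            rw [← pow_add, ← pow_add, ← Real.exp_add, ← Real.exp_add]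
            congr 2
            · omega
            · ring
    refine (Finset.sum_le_card_nsmul _ _ _ b2).trans ?_
    rw [nsmul_eq_mul]
    refine mul_le_mul_of_nonneg_right ?_ (by positivity)
    have b3 : #((Finset.range (k + 1) ×ˢ Finset.range (k + 1)).filter
        (fun q => q.1 + q.2 ≤ k)) ≤ (k + 1) ^ 2 := by
      refine (Finset.card_filter_le _ _).trans ?_
      rw [Finset.card_product, Finset.card_range]
      nlinarith
    exact_mod_cast b3
  have h6 : 1 / 12 * (mu ^ k * Real.exp (-(4 * g))) <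
      ((k : ℝ) + 1) ^ 2 * (mu ^ k * Real.exp (-(5 * g))) := h4.trans_le h5
  have h7 : Real.exp (-(4 * g)) = Real.exp g * Real.exp (-(5 * g)) := by
    rw [← Real.exp_add]
    congr 1
    ring
  rw [h7] at h6
  have h8 : 0 < mu ^ k * Real.exp (-(5 * g)) := by positivity
  have h9 : Real.exp g < 12 * ((k : ℝ) + 1) ^ 2 := by
    by_contra h
    push Not at h
    have : 12 * ((k : ℝ) + 1) ^ 2 * (mu ^ k * Real.exp (-(5 * g))) ≤
        Real.exp g * (mu ^ k * Real.exp (-(5 * g))) := mul_le_mul_of_nonneg_right h h8.le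
    linarith
  have h10 : ((k : ℝ) + 1) ^ 2 ≤ ((m : ℝ) + 1) ^ 2 := by
    have : (k : ℝ) ≤ m := by exact_mod_cast hkm
    have : (0 : ℝ) ≤ k := by positivity
    gcongr
  linarith

end Pool.Agent.W287.S3.Blk1
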